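import Mathlib
import Pool.Agent.R975.AS.Main

/-!
# The noisy tree min-max value converges almost surely for every `d ≥ 3`

The vertices of the rooted `d`-ary tree are the lists of elements of `Fin d`; the root is `[]`, the
children of `v` are the lists `c :: v` with `c : Fin d`, and the height of `v` is its length. `x u`
is the cookie on the edge between `u` and its parent.
-/

set_option autoImplicit false

namespace Pool.Agent.Results.MP_63799c_pr.AlmostSure

open Set Filter Topology MeasureTheory ProbabilityTheory

/-- `value x m v` is the value of the vertex `v` when `m` levels remain below it: it is `0` if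
`m = 0`; otherwise it is the maximum (if the height of `v` is even) or the minimum (if it is odd)
over the `d` children `u = c :: v` of `v` of the cookie `x u` plus the value of `u`. -/
noncomputable def value {d : ℕ} (x : List (Fin d) → ℤ) : ℕ → List (Fin d) → ℤ
  | 0, _ => 0
  | m + 1, v =>
    if Even v.length then ⨆ c : Fin d, (x (c :: v) + value x m (c :: v))
    else ⨅ c : Fin d, (x (c :: v) + value x m (c :: v))

/-- `V_n`, the value of the root in the game with `2 n` levels, as a random variable. -/
noncomputable def V {d : ℕ} {Ω : Type*} (X : List (Fin d) → Ω → ℤ) (n : ℕ) (ω : Ω) : ℤ :=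
  value (fun u => X u ω) (2 * n) []

lemma value_eq {d : ℕ} (x : List (Fin d) → ℤ) (m : ℕ) :
    ∀ v, value x m v = Pool.Agent.R975.AS.val x m v := by
  induction m with
  | zero => intro v; rfl
  | succ m ih =>
    intro v
    simp only [value, Pool.Agent.R975.AS.val, ih]

/-- **Theorem.** Let `d ≥ 3` and let the cookies `X u` be independent and uniform on `{-1, 1}`.
Then almost surely the integers `V_n` converge as `n → ∞`. -/
theorem result {d : ℕ} (hd : 3 ≤ d) {Ω : Type*} [MeasurableSpace Ω] (P : Measure Ω)
    [IsProbabilityMeasure P] (X : List (Fin d) → Ω → ℤ) (hX : ∀ v, Measurable (X v))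
    (hind : iIndepFun X P)
    (hlaw : ∀ v, P {ω | X v ω = 1} = 1 / 2 ∧ P {ω | X v ω = -1} = 1 / 2) :
    ∀ᵐ ω ∂P, ∃ a : ℤ, Tendsto (fun n : ℕ => V X n ω) atTop (𝓝 a) := by
  have hlaw' : ∀ v, P.real {ω | X v ω = 1} = 1 / 2 ∧ P.real {ω | X v ω = -1} = 1 / 2 := by
    intro v
    obtain ⟨h1, h2⟩ := hlaw v
    constructor
    · rw [Measure.real, h1]; norm_num
    · rw [Measure.real, h2]; norm_num
  have h := Pool.Agent.R975.AS.main hd (P := P) (X := X) ⟨hX, hind, hlaw'⟩
  filter_upwards [h] with ω hω
  obtain ⟨a, ha⟩ := hω
  refine ⟨a, tendsto_const_nhds.congr' ?_⟩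
  filter_upwards [ha] with n hn
  rw [V, value_eq]
  exact hn.symm

end Pool.Agent.Results.MP_63799c_pr.AlmostSure
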